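import Pool.Agent.H.MP_e5a626_al.Main

namespace Pool.Agent.Results.MP_e5a626_al.Q1

open Pool.Agent.H.MP_62749c_al

theorem result (X G : Type*) [Group G]
    (hG : ∃ G0 : Subgroup G, G0.FiniteIndex ∧ Group.IsNilpotent G0) :
    (∃ j : Monoid.Coprod (FreeMonoid X) G →* FreeGroup X × Equiv.Perm (ℤ → G),
      Function.Injective j) ∧
    MalcevCoherent (Monoid.Coprod (FreeMonoid X) G) := by
  obtain ⟨G0, h1, h2⟩ := hG
  exact ⟨⟨_, Pool.Agent.H.MP_e5a626_al.Gen.jC_inj⟩,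
    coherent_of_fng _ Pool.Agent.H.MP_e5a626_al.Gen.jC_inj fun _ φ =>
      Pool.Agent.H.MP_e5a626_al.Gen.main_fng' G0 φ⟩

end Pool.Agent.Results.MP_e5a626_al.Q1
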