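import Pool.Agent.H.MP_e5a626_al.Cex

namespace Pool.Agent.Results.MP_e5a626_al.Q2

open Pool.Agent.H.MP_62749c_al

theorem result : ∃ (M : Type) (_ : Monoid M),
    (∃ (G : Type) (_ : Group G) (j : M →* G), Function.Injective j) ∧ MalcevCoherent M ∧
    (∃ (G : Type) (_ : Group G) (j : Monoid.Coprod (FreeMonoid (Fin 2)) M →* G),
      Function.Injective j) ∧
    ¬ MalcevCoherent (Monoid.Coprod (FreeMonoid (Fin 2)) M) :=
  ⟨Pool.Agent.H.MP_e5a626_al.M, inferInstance,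
    ⟨_, inferInstance, _, Pool.Agent.H.MP_e5a626_al.jM_inj⟩,
    Pool.Agent.H.MP_e5a626_al.coherent_M,
    ⟨_, inferInstance, _, Pool.Agent.H.MP_e5a626_al.jC_inj⟩,
    Pool.Agent.H.MP_e5a626_al.not_coherent⟩

end Pool.Agent.Results.MP_e5a626_al.Q2
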